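import Pool.Agent.Helper89.GP.GoalsC

/-!
# Two comparisons halve the number of linear extensions: the heights (GLO)
-/

namespace Pool.Agent.Helper60.GP

open Finset Pool.Agent.Helper89.GP

variable {n : ℕ} {R : Fin n → Fin n → Prop}

theorem bef {x y : Fin n} (hne : (LX R).Nonempty) (hxy : x ≠ y) (h : An R x y < 5 / 16)
    (hinc : ¬ Inc R x y) : ∀ σ ∈ LX R, po σ x < po σ y := by
  by_contra hcon
  push Not at hcon
  obtain ⟨σ, hσ, h1⟩ := hcon
  have h2 : po σ y < po σ x := by
    rcases po_lt_or (σ := σ) hxy with h3 | h3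
    · omega
    · exact h3
  have h4 : ∀ τ ∈ LX R, po τ y < po τ x := by
    intro τ hτ
    rcases po_lt_or (σ := τ) hxy with h3 | h3
    · exact absurd ⟨⟨τ, hτ, h3⟩, ⟨σ, hσ, h2⟩⟩ hinc
    · exact h3
  have h5 : An R x y = 1 := by
    unfold An
    rw [← Pr_true hne]
    exact Pr_congr fun τ hτ => ⟨fun _ => trivial, fun _ => h4 τ hτ⟩
  rw [h5] at h
  norm_num at h

theorem one_le_gp {x y : Fin n} (hne : (LX R).Nonempty) (h : ∀ σ ∈ LX R, po σ x < po σ y) :
    1 ≤ gp R x y := by
  unfold gp
  rw [← Ex_const hne 1]
  apply Ex_mono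
  intro σ hσ
  have h1 := h σ hσ
  have h2 : (po σ x : ℝ) + 1 ≤ po σ y := by exact_mod_cast h1
  unfold df
  linarith

/-- GLO. -/
theorem glo (hmna : MnaStmt) (hmnb : MnbStmt) (hmnc : MncStmt) (hpar : ParStmt) (hksn : KsnStmt)
    (hchn : ChnStmt) (hdcb : DcbStmt) : GloStmt := by
  intro n R h2 hA hM
  have hne : (LX R).Nonempty := by
    rw [← Finset.card_pos]; omega
  have hgp : ∀ x y : Fin n, x ≠ y → gp R x y = hh R y - hh R x :=
    fun x y hxy => (hdcb n R x y hne hxy).2.2.2.1
  have hpos : ∀ x y : Fin n, x ≠ y → An R x y < 5 / 16 → hh R x < hh R y := by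
    intro x y hxy h
    have h1 := hgp x y hxy
    by_cases hinc : Inc R x y
    · have h3 := hksn _ _ _ _ (hpar n R x y hinc) h.le
      linarith
    · have h3 := one_le_gp hne (bef hne hxy h hinc)
      linarith
  have hinj : Function.Injective (hh R) := by
    intro a b hab
    by_contra hne'
    rcases hA a b hne' with h | h
    · have := hpos a b hne' h
      linarith
    · have := hpos b a (Ne.symm hne') h
      linarith
  have hn : 0 < n := by
    rcases Nat.eq_zero_or_pos n with h | h
    · subst h
      have h3 : (LX R).card ≤ 1 := by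
        apply Finset.card_le_one.2
        intro a _ b _
        exact Subsingleton.elim _ _
      omega
    · exact h
  let e : Equiv.Perm (Fin n) := Tuple.sort (hh R)
  have hmono : Monotone (hh R ∘ e) := Tuple.monotone_sort (hh R)
  have hstrict : StrictMono (hh R ∘ e) :=
    hmono.strictMono_of_injective (hinj.comp e.injective)
  let E : ℕ → Fin n := fun i => if h : i < n then e ⟨i, h⟩ else e ⟨0, hn⟩
  have hE : ∀ i (h : i < n), E i = e ⟨i, h⟩ := fun i h => by simp [E, h]
  have hlt : ∀ i j, i < j → j < n → hh R (E i) < hh R (E j) := by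
    intro i j hij hj
    rw [hE i (hij.trans hj), hE j hj]
    exact hstrict (show (⟨i, hij.trans hj⟩ : Fin n) < ⟨j, hj⟩ from hij)
  have hneE : ∀ i j, i < j → j < n → E i ≠ E j := by
    intro i j hij hj h
    have := hlt i j hij hj
    rw [h] at this
    exact lt_irrefl _ this
  have hAE : ∀ i j, i < j → j < n → An R (E i) (E j) < 5 / 16 := by
    intro i j hij hj
    rcases hA _ _ (hneE i j hij hj) with h | h
    · exact h
    · have h3 := hpos _ _ (Ne.symm (hneE i j hij hj)) h
      have h4 := hlt i j hij hj
      linarith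
  have hh0 : ∀ x, 0 ≤ hh R x := by
    intro x
    unfold hh
    rw [← Ex_const hne 0]
    exact Ex_mono fun σ _ => Nat.cast_nonneg _
  have key : ∀ i, i < n → ((i : ℝ) ≤ hh R (E i) ∧
      ((∃ j, j < i ∧ Inc R (E j) (E (j + 1))) → (i : ℝ) < hh R (E i))) := by
    intro i
    induction i using Nat.strong_induction_on with
    | _ i ih =>
      intro hi
      rcases Nat.eq_zero_or_pos i with h0 | h0
      · subst h0
        refine ⟨by simpa using hh0 _, ?_⟩
        rintro ⟨j, hj, _⟩
        omega
      obtain ⟨k, rfl⟩ : ∃ k, i = k + 1 := ⟨i - 1, by omega⟩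
      have hyz := hneE k (k + 1) (by omega) hi
      have hAyz := hAE k (k + 1) (by omega) hi
      have hgyz := hgp _ _ hyz
      obtain ⟨hk1, hk2⟩ := ih k (by omega) (by omega)
      by_cases hinc : Inc R (E k) (E (k + 1))
      · have hmain : ((k + 1 : ℕ) : ℝ) < hh R (E (k + 1)) := by
          rcases Nat.eq_zero_or_pos k with hk0 | hk0
          · subst hk0
            have := (hmnc n R _ _ hinc hAyz.le).2
            simpa using this
          · obtain ⟨m, rfl⟩ : ∃ m, k = m + 1 := ⟨k - 1, by omega⟩
            have hxy := hneE m (m + 1) (by omega) (by omega)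
            have hAxy := hAE m (m + 1) (by omega) (by omega)
            have hgxy := hgp _ _ hxy
            have hxz := hneE m (m + 2) (by omega) hi
            have hAxz := hAE m (m + 2) (by omega) hi
            obtain ⟨hm1, _⟩ := ih m (by omega) (by omega)
            have hsum : 2 < gp R (E m) (E (m + 1)) + gp R (E (m + 1)) (E (m + 1 + 1)) := by
              by_cases hixy : Inc R (E m) (E (m + 1))
              · have hMs := hM _ _ _ hxy hyz hAxy hAyz
                by_cases hixz : Inc R (E m) (E (m + 2))
                · exact hmna n R _ _ _ hixy hinc hixz hAxy.le hAyz.le hMs.le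
                · exact hmnb n R _ _ _ hixy hinc (bef hne hxz hAxz hixz) hAxy.le hAyz.le hMs.le
              · exact (hmnc n R _ _ hinc hAyz.le).1 _ (bef hne hxy hAxy hixy)
            push_cast
            linarith
        exact ⟨hmain.le, fun _ => hmain⟩
      · have h3 := one_le_gp hne (bef hne hyz hAyz hinc)
        refine ⟨by push_cast; linarith, ?_⟩
        rintro ⟨j, hj, hjinc⟩
        have hjk : j < k := by
          rcases Nat.lt_or_ge j k with h | h
          · exact h
          · have : j = k := by omega
            subst this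
            exact absurd hjinc hinc
        have := hk2 ⟨j, hjk, hjinc⟩
        push_cast
        linarith
  have htop : hh R (E (n - 1)) ≤ ((n - 1 : ℕ) : ℝ) := by
    unfold hh
    rw [← Ex_const hne ((n - 1 : ℕ) : ℝ)]
    apply Ex_mono
    intro σ _
    have := po_lt_n σ (E (n - 1))
    exact_mod_cast (by omega : po σ (E (n - 1)) ≤ n - 1)
  have hno : ∀ j, j < n - 1 → ¬ Inc R (E j) (E (j + 1)) := by
    intro j hj hinc
    have := (key (n - 1) (by omega)).2 ⟨j, hj, hinc⟩
    linarith
  have hcard : (LX R).card ≤ 1 := by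
    apply hchn n R e
    intro i j hij σ hσ
    have hj := j.isLt
    have h3 := bef hne (hneE i (i + 1) (by omega) (by omega)) (hAE i (i + 1) (by omega) (by omega))
      (hno i (by omega)) σ hσ
    rw [hE i i.isLt, hE (i + 1) (by omega)] at h3
    have h4 : (⟨(i : ℕ) + 1, by omega⟩ : Fin n) = j := Fin.ext hij.symm
    rw [h4] at h3
    exact h3
  omega

end Pool.Agent.Helper60.GP
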